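import Pool.Agent.L7h66.UA.StmY
import Pool.Agent.L7h87.UA.Lrc

/-!
# Project UA, part LRA: analytic classes closed under younger structures over finite sets

helper87's proof of `S_LRC` for analytic classes.
-/

set_option autoImplicit false

namespace Pool.Agent.L7h47.UA

open Set Function MeasureTheory
open Pool.Agent.L7h66.UA
open Pool.Agent.L7h87.UA (KK ar enc dec dec_enc enc_iso dec_iso Coh' coh_iso coh_loc loc_yo)

theorem analytic_inter {X : Type*} [TopologicalSpace X] [T2Space X] {s t : Set X} (hs : AnalyticSet s)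
    (ht : AnalyticSet t) : AnalyticSet (s ∩ t) := by
  have h : s ∩ t = ⋂ b : Bool, cond b s t := by
    ext x
    simp [and_comm]
  rw [h]
  refine AnalyticSet.iInter fun b => ?_
  cases b
  · exact ht
  · exact hs

theorem s_LRA (hA : S_ALA) : S_LRA := by
  intro a K _ _ _ _ B hB hiso hyo
  have hdc : Continuous (dec : XS ar (KK a K) ℕ → XS a K ℕ) := by
    refine continuous_pi fun i => continuous_pi fun x => ?_
    show Continuous fun N : XS ar (KK a K) ℕ => N (a i) x i id
    fun_prop
  have hec : Continuous (enc : XS a K ℕ → XS ar (KK a K) ℕ) := by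
    refine continuous_pi fun r => continuous_pi fun u => continuous_pi fun i => continuous_pi fun t => ?_
    show Continuous fun M : XS a K ℕ => M i (u ∘ t)
    fun_prop
  have hB' : AnalyticSet {N : XS ar (KK a K) ℕ | Coh' N ∧ dec N ∈ B} := by
    apply analytic_inter
    · exact (isClosed_eq (hec.comp hdc) continuous_id).measurableSet.analyticSet
    · exact hB.preimage hdc
  rcases hA ar (KK a K) {N | Coh' N ∧ dec N ∈ B} hB' (fun M hM N h => ⟨coh_iso hM.1 h, hiso _ hM.2 _ (dec_iso h)⟩)
    (fun M hM => by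
      obtain ⟨F, hF⟩ := hyo _ hM.2
      exact ⟨F, fun N hN => ⟨coh_loc hM.1 hN, hF _ (loc_yo hM.1 (coh_loc hM.1 hN) hN)⟩⟩) with
    ⟨C, hC, hC2⟩ | ⟨g, g1, g2, g3⟩
  · left
    refine ⟨dec '' C, hC.image _, fun M hM => ?_⟩
    obtain ⟨N, hN, hNM⟩ := hC2 (enc M) ⟨congrArg enc (dec_enc M), by rw [dec_enc]; exact hM⟩
    exact ⟨dec N, ⟨N, hN, rfl⟩, dec_iso hNM⟩
  · right
    refine ⟨dec ∘ g, hdc.comp g1, fun c => (g2 c).2, fun c d h => g3 c d ?_⟩
    have h1 := enc_iso h
    have h2 : enc (dec (g c)) = g c := (g2 c).1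
    have h3 : enc (dec (g d)) = g d := (g2 d).1
    simp only [comp_apply] at h1
    rwa [h2, h3] at h1

end Pool.Agent.L7h47.UA
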