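import Pool.Agent.L7h66.UA.StmY
import Pool.Agent.L7h47.UA.Lra

/-!
# Project UA, part AGE: the structures younger than a member of an analytic class
-/

set_option autoImplicit false

namespace Pool.Agent.L7h47.UA

open Set Function MeasureTheory
open Pool.Agent.L7h66.UA

variable {a : ℕ → ℕ} {K : ℕ → Type}

open Classical in
/-- extension of a function on a finite set by `0` -/
noncomputable def ext0 (X : Finset ℕ) (f : X → ℕ) : ℕ → ℕ := fun n => if h : n ∈ X then f ⟨n, h⟩ else 0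

theorem ext0_mem (X : Finset ℕ) (f : X → ℕ) {n : ℕ} (h : n ∈ X) : ext0 X f n = f ⟨n, h⟩ := dif_pos h

theorem yo_iff (M N : XS a K ℕ) : XYo ∅ M N ↔ ∀ X : Finset ℕ, ∃ f : X → ℕ, Injective f ∧
    ∀ i (x : Fin (a i) → ℕ), (∀ j, x j ∈ X) → M i (ext0 X f ∘ x) = N i x := by
  constructor
  · intro h X
    obtain ⟨e, h1, -, h3⟩ := h X
    refine ⟨fun n => e n, fun p q hpq => Subtype.ext (h1 p.2 q.2 hpq), fun i x hx => ?_⟩
    rw [← h3 i x hx]
    congr 1
    funext j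
    exact ext0_mem X _ (hx j)
  · intro h X
    obtain ⟨f, h1, h2⟩ := h X
    refine ⟨ext0 X f, fun p hp q hq hpq => ?_, fun p hp => absurd hp (Finset.notMem_empty p), h2⟩
    rw [ext0_mem X f hp, ext0_mem X f hq] at hpq
    exact congrArg Subtype.val (h1 hpq)

theorem meas_yo [∀ i, TopologicalSpace (K i)] [∀ i, PolishSpace (K i)]
    [∀ i, MeasurableSpace (K i)] [∀ i, BorelSpace (K i)] :
    MeasurableSet {p : XS a K ℕ × XS a K ℕ | XYo ∅ p.1 p.2} := by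
  have h0 : {p : XS a K ℕ × XS a K ℕ | XYo ∅ p.1 p.2} = ⋂ X : Finset ℕ, ⋃ f : {f : X → ℕ // Injective f},
      {p : XS a K ℕ × XS a K ℕ | ∀ i (x : Fin (a i) → ℕ), (∀ j, x j ∈ X) → p.1 i (ext0 X f.1 ∘ x) = p.2 i x} := by
    ext p
    simp only [mem_iInter, mem_iUnion]
    refine (yo_iff p.1 p.2).trans (forall_congr' fun X => ?_)
    constructor
    · rintro ⟨f, h1, h2⟩
      exact ⟨⟨f, h1⟩, h2⟩
    · rintro ⟨⟨f, h1⟩, h2⟩
      exact ⟨f, h1, h2⟩
  rw [h0]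
  refine MeasurableSet.iInter fun X => MeasurableSet.iUnion fun f => ?_
  refine IsClosed.measurableSet ?_
  have h1 : {p : XS a K ℕ × XS a K ℕ | ∀ i (x : Fin (a i) → ℕ), (∀ j, x j ∈ X) → p.1 i (ext0 X f.1 ∘ x) = p.2 i x} =
      ⋂ (i : ℕ) (x : Fin (a i) → ℕ) (_ : ∀ j, x j ∈ X), {p | p.1 i (ext0 X f.1 ∘ x) = p.2 i x} := by
    ext p
    simp only [mem_iInter]
    exact Iff.rfl
  rw [h1]
  refine isClosed_iInter fun i => isClosed_iInter fun x => isClosed_iInter fun _ => isClosed_eq ?_ ?_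
  · exact (continuous_apply _).comp ((continuous_apply i).comp continuous_fst)
  · exact (continuous_apply _).comp ((continuous_apply i).comp continuous_snd)

theorem yo_trans {M N P : XS a K ℕ} (h1 : XYo ∅ M N) (h2 : XYo ∅ N P) : XYo ∅ M P := by
  classical
  intro X
  obtain ⟨e, e1, -, e3⟩ := h2 X
  obtain ⟨f, f1, -, f3⟩ := h1 (X.image e)
  refine ⟨f ∘ e, ?_, fun p hp => absurd hp (Finset.notMem_empty p), fun i x hx => ?_⟩
  · refine InjOn.comp f1 e1 ?_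
    intro p hp
    exact Finset.mem_coe.2 (Finset.mem_image_of_mem e hp)
  · rw [← e3 i x hx, ← f3 i (e ∘ x) fun j => Finset.mem_image_of_mem e (hx j)]
    rfl

theorem yo_of_iso {N P : XS a K ℕ} (h : XIso N P) : XYo ∅ N P := by
  obtain ⟨σ, hσ⟩ := h
  intro X
  refine ⟨σ.symm, σ.symm.injective.injOn, fun p hp => absurd hp (Finset.notMem_empty p), fun i x _ => ?_⟩
  rw [← hσ i (σ.symm ∘ x)]
  congr 1
  funext j
  simp

theorem s_AGE (hA : S_LRA) : S_AGE := by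
  intro a K _ _ _ _ 𝒦 hK
  refine hA a K _ ?_ ?_ ?_
  · have h0 : {N : XS a K ℕ | ∃ M ∈ 𝒦, XYo ∅ M N} =
        Prod.snd '' (Prod.fst ⁻¹' 𝒦 ∩ {p : XS a K ℕ × XS a K ℕ | XYo ∅ p.1 p.2}) := by
      ext N
      constructor
      · rintro ⟨M, hM, h⟩
        exact ⟨(M, N), ⟨hM, h⟩, rfl⟩
      · rintro ⟨⟨M, N'⟩, ⟨hM, h⟩, rfl⟩
        exact ⟨M, hM, h⟩
    rw [h0]
    refine AnalyticSet.image_of_continuous (analytic_inter (hK.preimage continuous_fst) ?_) continuous_snd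
    exact meas_yo.analyticSet
  · rintro N ⟨M, hM, h⟩ P hP
    exact ⟨M, hM, yo_trans h (yo_of_iso hP)⟩
  · rintro N ⟨M, hM, h⟩
    exact ⟨∅, fun P hP => ⟨M, hM, yo_trans h hP⟩⟩

end Pool.Agent.L7h47.UA
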