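import Pool.Agent.L7h66.UA.StmY
import Pool.Agent.L7h18.UA.Ctx

/-!
# Project UA, part CTA: the number of the theories for analytic classes

helper18's (and helper29's) proof for the codes of the members of an analytic class.
-/

set_option autoImplicit false

namespace Pool.Agent.L7h47.UA

open Set Function MeasureTheory
open Pool.Agent.L7h66.UA
open Pool.Agent.L7h18.UA.X (liso_trans liso_symm liso_of_xiso Om Yset meas_Yset liso_Y)

/-- the space of the codes -/
abbrev Om' : Type := (ℕ → ℕ) × (ℕ → ℕ → ℕ) × (ℕ → ℕ → ℕ) × (ℕ → ℕ)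

/-- the codes -/
def Yz {a : ℕ → ℕ} {K : ℕ → Type} (f : (ℕ → ℕ) → XS a K ℕ) (R : ℕ → ℕ → XS a K ℕ)
    (M : ℕ → ℕ → Prop) : Set Om' :=
  {p | ((f p.1, p.2) : Om a K) ∈ Yset univ R M}

section meas

variable {a : ℕ → ℕ} {K : ℕ → Type} [∀ i, TopologicalSpace (K i)] [∀ i, PolishSpace (K i)]
    [∀ i, MeasurableSpace (K i)] [∀ i, BorelSpace (K i)]

lemma meas_Yz {f : (ℕ → ℕ) → XS a K ℕ} (hf : Measurable f) (R : ℕ → ℕ → XS a K ℕ)
    (M : ℕ → ℕ → Prop) : MeasurableSet (Yz f R M) :=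
  (meas_Yset MeasurableSet.univ R M).preimage
    (f := fun p : Om' => ((f p.1, p.2) : Om a K)) ((hf.comp measurable_fst).prodMk measurable_snd)

/-- the first step: uncountably many values -/
lemma of_values' {f : (ℕ → ℕ) → XS a K ℕ} (hf : Measurable f)
    (i : ℕ) (hc : ¬ (⋃ x : Fin (a i) → ℕ, Set.range fun z => f z i x).Countable) :
    ∃ g : (ℕ → Bool) → XS a K ℕ, Continuous g ∧ (∀ c, g c ∈ range f) ∧
      ∀ c d, XIso (g c) (g d) → c = d := by
  obtain ⟨h, h1, h2⟩ := Pool.Agent.H565R2.FO2.perfect_of_uncountable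
    (Y := ℕ → ℕ) (X := XS a K ℕ) (Z := K i) (ι := Fin (a i) → ℕ)
    f hf
    (fun x z => f z i x)
    (fun x => (show Measurable (fun M : XS a K ℕ => M i x) from
      (measurable_pi_apply x).comp (measurable_pi_apply i)).comp hf)
    (fun M N => XIso (f M) (f N)) (by
      rintro M N ⟨e, he⟩ x
      exact ⟨e ∘ x, (he i x).symm⟩) hc
  refine ⟨fun c => f (h c), h1, fun c => ⟨h c, rfl⟩, fun c d hcd => ?_⟩
  by_contra hne
  exact h2 c d hne hcd

end meas

theorem s_CTA (hR : S_REX) : S_CTA := by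
  intro a K _ _ _ _ B hB hcell
  rw [AnalyticSet] at hB
  rcases hB with hE | ⟨f, hfc, rfl⟩
  · subst hE
    exact Or.inr ⟨∅, countable_empty, empty_subset _, fun x hx => absurd hx (notMem_empty x)⟩
  have hf : Measurable f := hfc.measurable
  by_cases hQ : ∀ i, (⋃ x : Fin (a i) → ℕ, Set.range fun z => f z i x).Countable
  swap
  · push Not at hQ
    obtain ⟨i, hi⟩ := hQ
    exact Or.inl (of_values' hf i hi)
  choose R0 hR0 hR1 using hR a K (fun i => ⋃ x : Fin (a i) → ℕ, Set.range fun z => f z i x) hQ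
  have hR1 : ∀ n z, ∃ y ∈ R0 n, ∃ σ, LIsoX n y (f z) σ := fun n z =>
    hR1 n (f z) (hcell _ ⟨z, rfl⟩ n) fun i x => mem_iUnion.2 ⟨x, ⟨z, rfl⟩⟩
  have hne : ∀ n, (R0 n).Nonempty := by
    intro n
    obtain ⟨y, hy, -⟩ := hR1 n (fun _ => 0)
    exact ⟨y, hy⟩
  choose R hRr using fun n => (hR0 n).exists_eq_range (hne n)
  set M : ℕ → ℕ → Prop := fun n k => ∀ j, j < k → ¬ ∃ σ, LIsoX n (R n j) (R n k) σ with hM
  -- surjectivity
  have hsurj : ∀ z, ∃ p ∈ Yz f R M, p.1 = z := by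
    classical
    intro z
    have h1 : ∀ n, ∃ k, ∃ σ, LIsoX n (R n k) (f z) σ := by
      intro n
      obtain ⟨y, hy, σ, hσ⟩ := hR1 n z
      rw [hRr n] at hy
      obtain ⟨k, rfl⟩ := hy
      exact ⟨k, σ, hσ⟩
    have h2 : ∀ n, ∃ k, (∃ σ, LIsoX n (R n k) (f z) σ) ∧ M n k := by
      intro n
      refine ⟨Nat.find (h1 n), Nat.find_spec (h1 n), fun j hj => ?_⟩
      rintro ⟨σ, hσ⟩
      obtain ⟨τ, hτ⟩ := Nat.find_spec (h1 n)
      exact Nat.find_min (h1 n) hj ⟨τ * σ, liso_trans hσ hτ⟩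
    choose k h3 h4 using h2
    choose σ h5 using h3
    refine ⟨(z, fun n => σ n, fun n => (σ n).symm, k), ⟨mem_univ _, ?_, ?_, ?_, ?_⟩, rfl⟩
    · intro n m j hj
      show σ n j = m
      have hj' : (σ n).symm m = j := hj
      rw [← hj', Equiv.apply_symm_apply]
    · intro n m j hj
      show (σ n).symm j = m
      have hj' : σ n m = j := hj
      rw [← hj', Equiv.symm_apply_apply]
    · intro n i hi v u j hu hj
      have hj' : k n = j := hj
      have hu' : ∀ t, σ n (v t) = u t := hu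
      have h6 := h5 n i hi v
      subst hj'
      have : u = ⇑(σ n) ∘ v := funext fun t => (hu' t).symm
      rw [this]
      exact h6
    · intro n j hj
      have hj' : k n = j := hj
      rw [← hj']
      exact h4 n
  by_cases hc : (⋃ _ : Unit, Set.range fun y : Yz f R M => y.1.2.2.2).Countable
  · right
    have hc' : (Set.range fun y : Yz f R M => y.1.2.2.2).Countable := by
      rwa [iUnion_const] at hc
    have hch : ∀ k : (Set.range fun y : Yz f R M => y.1.2.2.2), ∃ y : Yz f R M, y.1.2.2.2 = k.1 :=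
      fun k => k.2
    choose ch hch' using hch
    have : Countable (Set.range fun y : Yz f R M => y.1.2.2.2) := hc'.to_subtype
    refine ⟨Set.range fun k => f (ch k).1.1, countable_range _, ?_, ?_⟩
    · rintro _ ⟨k, rfl⟩
      exact ⟨_, rfl⟩
    · rintro _ ⟨z, rfl⟩
      obtain ⟨p, hp, rfl⟩ := hsurj z
      set k : (Set.range fun y : Yz f R M => y.1.2.2.2) := ⟨p.2.2.2, ⟨⟨p, hp⟩, rfl⟩⟩ with hk
      refine ⟨f (ch k).1.1, ⟨k, rfl⟩, fun n => ?_⟩
      obtain ⟨σ, hσ⟩ := liso_Y hp n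
      obtain ⟨τ, hτ⟩ := liso_Y (ch k).2 n
      have e : (ch k).1.2.2.2 = p.2.2.2 := hch' k
      simp only at hσ hτ
      rw [e] at hτ
      exact ⟨τ * σ⁻¹, liso_trans (liso_symm hσ) hτ⟩
  · left
    have hstd : StandardBorelSpace (Yz f R M) := (meas_Yz hf R M).standardBorel
    have hE : ∀ y y' : Yz f R M, XIso (f y.1.1) (f y'.1.1) → ∀ i : Unit, ∃ j : Unit,
        (fun (_ : Unit) (y : Yz f R M) => y.1.2.2.2) i y =
          (fun (_ : Unit) (y : Yz f R M) => y.1.2.2.2) j y' := by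
      intro y y' hyy' _
      refine ⟨(), ?_⟩
      funext n
      obtain ⟨σ, hσ⟩ := liso_Y y.2 n
      obtain ⟨τ, hτ⟩ := liso_Y y'.2 n
      obtain ⟨ρ, hρ⟩ := liso_of_xiso (n := n) hyy'
      have k1 : LIsoX n (R n (y.1.2.2.2 n)) (R n (y'.1.2.2.2 n)) (τ⁻¹ * (ρ * σ)) :=
        liso_trans (liso_trans hσ hρ) (liso_symm hτ)
      rcases lt_trichotomy (y.1.2.2.2 n) (y'.1.2.2.2 n) with h3 | h3 | h3
      · exact absurd ⟨_, k1⟩ (y'.2.2.2.2.2 n _ rfl _ h3)
      · exact h3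
      · exact absurd ⟨_, liso_symm k1⟩ (y.2.2.2.2.2 n _ rfl _ h3)
    obtain ⟨h, h1, h2⟩ := Pool.Agent.H565R2.FO2.perfect_of_uncountable
      (Y := Yz f R M) (X := XS a K ℕ) (Z := ℕ → ℕ) (ι := Unit)
      (fun y => f y.1.1) (hf.comp (measurable_fst.comp measurable_subtype_coe))
      (fun _ y => y.1.2.2.2)
      (fun _ => (measurable_snd.comp (measurable_snd.comp measurable_snd)).comp measurable_subtype_coe)
      (fun y y' => XIso (f y.1.1) (f y'.1.1)) hE hc
    refine ⟨fun c => f (h c).1.1, h1, fun c => ⟨_, rfl⟩, fun c d hcd => ?_⟩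
    by_contra hne
    exact h2 c d hne hcd

end Pool.Agent.L7h47.UA
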